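import Mathlib

set_option autoImplicit false

namespace Pool.Agent.Results.MP_106bf9_an.Cex

open Polynomial

/-- Number of distinct zeros of `P` and of its derivatives of the orders in `R`. -/
noncomputable def N (P : ℂ[X]) (R : Finset ℕ) : ℕ :=
  ({z : ℂ | P.IsRoot z} ∪ ⋃ r ∈ R, {z : ℂ | (derivative^[r] P).IsRoot z}).ncard

theorem result : ∃ (n : ℕ) (R : Finset ℕ) (P : ℂ[X]), 2 ≤ n ∧ R.Nonempty ∧
    (∀ r ∈ R, 1 ≤ r ∧ r ≤ n - 1) ∧ P.natDegree = n ∧
    (∃ a b : ℂ, a ≠ b ∧ P.IsRoot a ∧ P.IsRoot b) ∧ N P R = R.card + 1 := by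
  refine ⟨4, {1, 3}, X ^ 4 - 2 * X ^ 2 + 1, by norm_num, by simp, by simp, by compute_degree!,
    ⟨1, -1, by norm_num, by norm_num, by norm_num⟩, ?_⟩
  have h : ({z : ℂ | (X ^ 4 - 2 * X ^ 2 + 1 : ℂ[X]).IsRoot z} ∪ ⋃ r ∈ ({1, 3} : Finset ℕ),
      {z : ℂ | (derivative^[r] (X ^ 4 - 2 * X ^ 2 + 1 : ℂ[X])).IsRoot z}) = {1, -1, 0} := by
    have d1 : derivative (X ^ 4 - 2 * X ^ 2 + 1 : ℂ[X]) = 4 * X ^ 3 - 4 * X := by
      simp [derivative_X_pow, map_ofNat]; ring
    have d2 : derivative (4 * X ^ 3 - 4 * X : ℂ[X]) = 12 * X ^ 2 - 4 := by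
      simp [derivative_X_pow, map_ofNat]; ring
    have d3 : derivative (12 * X ^ 2 - 4 : ℂ[X]) = 24 * X := by
      simp [derivative_X_pow, map_ofNat]; ring
    ext z
    simp only [Finset.mem_insert, Finset.mem_singleton, Set.iUnion_iUnion_eq_or_left,
      Set.iUnion_iUnion_eq_left, Function.iterate_succ, Function.iterate_zero, Function.comp,
      id, d1, d2, d3, Set.mem_union, Set.mem_ofPred_eq, IsRoot.def, Set.mem_insert_iff,
      Set.mem_singleton_iff]
    simp only [eval_add, eval_sub, eval_mul, eval_pow, eval_X, eval_ofNat, eval_one]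
    constructor
    · rintro (h | h | h)
      · have : (z - 1) ^ 2 * (z + 1) ^ 2 = 0 := by linear_combination h
        rcases mul_eq_zero.mp this with h | h
        · left; linear_combination pow_eq_zero_iff (two_ne_zero) |>.mp h
        · right; left; linear_combination pow_eq_zero_iff (two_ne_zero) |>.mp h
      · have : (z - 1) * ((z + 1) * z) = 0 := by linear_combination h / 4
        rcases mul_eq_zero.mp this with h | h
        · left; linear_combination h
        · rcases mul_eq_zero.mp h with h | h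
          · right; left; linear_combination h
          · right; right; exact h
      · right; right; linear_combination h / 24
    · rintro (rfl | rfl | rfl) <;> norm_num
  rw [N, h, Set.ncard_eq_three.mpr ⟨1, -1, 0, by norm_num, by norm_num, by norm_num, rfl⟩]
  rfl

end Pool.Agent.Results.MP_106bf9_an.Cex
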